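import Mathlib
import Pool.Agent.Q63.KU.Dec
import Pool.Agent.Q63.KU.CovDefs

/-!
# Frobenius is semisimple on the second cohomology of abelian planes with quotients of genus at most one

Let `X` be a smooth projective surface over a finite field of characteristic prime to `m`, with an action of the
group `G = (ℤ/m)^k`, `m = 2` or `m = 3`, such that `X/G` is the projective plane; the branch curves `D_i` have
degrees `d i`, normal crossings, and local monodromies `g i` in `G`. Suppose that all cyclic
quotients `X / ker a`, `a` a character of `G`, have geometric genus `pg a` at most one: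
* `m = 2`: the sum of the degrees of the `D_i` with `a (g i) ≠ 0` is at most `6`; the quotient is a
  rational surface, or a K3 surface (double sextic plane);
* `m = 3`: the quotient is rational, or the branch curve is the union of a line and of a quartic with
  opposite monodromy, and the quotient is a K3 surface.

Then the Frobenius acts semisimply on `H^2(X, ℚ_ℓ)`.

The geometric genus of `X` is not bounded by `1`; for example, for `m = 2`: seven lines in general position with
the group `(ℤ/2)^6` (complete intersections of four diagonal quadrics in `P^6`, `p_g = 7`), three
cubics with the group `(ℤ/2)^2` (`p_g = 3`), five lines and a conic; for `m = 3`: five lines with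
the group `(ℤ/3)^4` (complete intersections of two diagonal cubics, `p_g = 5`).
-/

set_option autoImplicit false

namespace Pool.Agent.Results.MP_1fe969_ag.AbelianPlanes

open Pool.Agent.Q63.KU

theorem result {F V : Type} [Field F] [IsAlgClosed F] [CharZero F] [AddCommGroup V] [Module F V]
    (m : ℕ) (hm : m = 2 ∨ m = 3) {k s : ℕ} (g : Fin s → Fin k → ZMod m) (d : Fin s → ℕ)
    (h : ∀ a : Fin k → ZMod m, pg m g d a ≤ 1)
    (ρ : Representation F (Multiplicative (Fin k → ZMod m)) V) (φ : V →ₗ[F] V)
    (hD : FrobData m g d ρ φ) :
    ⨆ μ : F, Module.End.eigenspace φ μ = ⊤ := by
  have hm' : NeZero m := ⟨by rcases hm with rfl | rfl <;> norm_num⟩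
  rw [eq_top_iff]
  exact le_of_kernels' (ρ := ρ) (fun _ _ _ => trivial) fun a v _ hN => hD.known a (h a) v hN

end Pool.Agent.Results.MP_1fe969_ag.AbelianPlanes
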