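import Pool.Agent.Q60.LO.Semi

/-!
# MP_1fe969_ag: Frobenius on the tensor product of the `H²` of different surfaces

Let `S_0, …, S_n` be smooth projective surfaces over a finite field, `b_i = dim H²(S_i)`. If
Frobenius is semisimple on all `H²(S_i)`, it is on their tensor product, a Künneth component of
`H^(2n+2)(S_0 × ⋯ × S_n)`. If it is not semisimple on `h ≥ 1` of them, with `b_i ≤ b` for these, then
the number of its Jordan blocks on the tensor product is at most `√(b / (2 (h + 1))) ∏ b_i`. So, if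
it has `ρ ∏ b_i` independent eigenvectors there, then `h + 1 ≤ b / (2 ρ²)`.
-/

set_option autoImplicit false

open Module

universe u v w

namespace Pool.Agent.Results.MP_1fe969_ag.DifferentSurfaces

open Pool.Agent.H914 Pool.Agent.Q60.SS Pool.Agent.Q60.LO

/-- **Jordan blocks of Frobenius on tensor products of the `H²` of different surfaces.** -/
theorem result {k : Type u} [Field k] [Finite k] {Ω : Type w} [Field Ω] [CharZero Ω]
    [IsAlgClosed Ω] {T : H2Theory.{u, v, w} k Ω} {q : ℕ} (hq : q = Nat.card k) (hT : T.IsWeil q)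
    (n : ℕ) (S : Fin (n + 1) → SmVar.{u} k) (hS : ∀ i, (S i).dim = 2) :
    ((∀ i, Semisimple (T.H2 (S i)).F) → Semisimple (tensors n fun i => T.H2 (S i)).F) ∧
    (∀ (F : Finset (Fin (n + 1))) (b : ℝ), F.Nonempty →
      (∀ i ∈ F, ¬ Semisimple (T.H2 (S i)).F) →
      (∀ i ∈ F, (finrank Ω (T.H2 (S i)).V : ℝ) ≤ b) →
      (blocks (tensors n fun i => T.H2 (S i)).F 0 : ℝ) ≤
        √(b / (2 * ((F.card : ℝ) + 1))) * ∏ i, (finrank Ω (T.H2 (S i)).V : ℝ) ∧
      ∀ ρ : ℝ, 0 < ρ → ρ * ∏ i, (finrank Ω (T.H2 (S i)).V : ℝ) ≤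
          (blocks (tensors n fun i => T.H2 (S i)).F 0 : ℝ) →
        (F.card : ℝ) + 1 ≤ b / (2 * ρ ^ 2)) := by
  obtain ⟨h1, h2⟩ := tensors_law n (fun i => T.H2 (S i)) (fun i => hT.finite _ (hS i))
    (fun i => hT.inj _ (hS i))
  refine ⟨h1, fun F b hF hfail hb => ⟨h2 F b hF hfail hb, fun ρ hρ h => ?_⟩⟩
  have hpos : ∀ i, 0 < finrank Ω (T.H2 (S i)).V := by
    intro i
    have := hT.finite _ (hS i)
    obtain ⟨x, hx, -⟩ := hT.ample _ (hS i)
    have : Nontrivial (T.H2 (S i)).V := ⟨x, 0, hx⟩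
    exact Module.finrank_pos
  have h3 : (0 : ℝ) < ∏ i, (finrank Ω (T.H2 (S i)).V : ℝ) :=
    Finset.prod_pos fun i _ => by exact_mod_cast hpos i
  have h4 : ρ ≤ √(b / (2 * ((F.card : ℝ) + 1))) :=
    le_of_mul_le_mul_right (h.trans (h2 F b hF hfail hb)) h3
  have hk : (0 : ℝ) < (F.card : ℝ) + 1 := by positivity
  have hb0 : 0 ≤ b := by
    obtain ⟨i, hi⟩ := hF
    exact le_trans (by positivity) (hb i hi)
  have h5 : ρ ^ 2 ≤ b / (2 * ((F.card : ℝ) + 1)) := by
    have := pow_le_pow_left₀ hρ.le h4 2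
    rwa [Real.sq_sqrt (by positivity)] at this
  rw [le_div_iff₀ (by positivity)] at h5 ⊢
  linarith

end Pool.Agent.Results.MP_1fe969_ag.DifferentSurfaces
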