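import Pool.Agent.Q148.LI.FrobW

/-!
# Semisimplicity of Frobenius on `H^2` of surfaces and the cubics `∑_{i ≤ 4} z_i B_i(x, y) = 1`

Let `k` be a finite field with `q` elements, `ℓ` a prime number different from the characteristic, `E` an
algebraic closure of the field of `ℓ`-adic numbers. For smooth projective schemes `Y` over `k` let
`V w Y = H^w(Ȳ, ℚ_ℓ) ⊗ E`, with the Frobenius `F` (a module over `E[F]`). For a scheme `X` of finite
type over `k` let `W(X)` be its weight complex, a complex of Chow motives with rational coefficients,
well defined up to homotopy (Gillet, Soulé; Bondarko). Its cohomology `H^w(W(X))` is a complex of modules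
over `E[F]`, and `C.ρ (w, α, i) X` is the natural map

  `H^i(ker (F - α | H^w(W(X)))) → H^i(coker (F - α | H^w(W(X))))`.

For smooth projective `Y` it is the map `ker (F - α | H^w(Y)) → H^w(Y) / (F - α)` for `i = 0`, and it is
bijective if and only if the generalized eigenspace of `F` for `α` is the eigenspace.

Let `S` be a set of eigenvalues that is stable under multiplication with powers of `q`: all elements of
`E` (question Q1), the powers of `q` (the weaker form of Q1), the products of powers of `q` with one
number `α`, ...

**Theorem.** The following are equivalent: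

(a) for all smooth projective surfaces `Y` over `k` the generalized eigenspaces of `F` on `H^2(Y)` for the
eigenvalues in `S` are eigenspaces;

(b) for all four-tuples `B_1, …, B_4` of bilinear forms over `k` in any numbers `a`, `b` of variables the
maps `C.ρ (w, α, i) X`, `α ∈ S`, are bijective for the cubic hypersurface
`X : z_1 B_1(x, y) + z_2 B_2(x, y) + z_3 B_3(x, y) + z_4 B_4(x, y) = 1` in the affine space of dimension
`a + b + 4`;

(c) the same for all schemes of finite type and dimension at most two over `k`.

For three bilinear forms the maps are bijective unconditionally.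
-/

set_option autoImplicit false

open CategoryTheory CategoryTheory.Limits AlgebraicGeometry Pool.Agent.Y116.UV Pool.Agent.Z125.UN
  Pool.Agent.Q193.LT Pool.Agent.Q148.LI

namespace Pool.Agent.Results.MP_1fe969_ag.FourVariables

variable {k : Type} [Field k] {E : Type} [Field E]

/-- The generalized eigenspaces of `F` on `H^2` for eigenvalues in `S` are eigenspaces, for all smooth
projective schemes of dimension two over `k`. -/
def Surfaces (V : ℤ → Sch k → FMod E) (S : Set E) : Prop :=
  ∀ Y : Sch k, SmoothProj Y → topologicalKrullDim Y.left = (2 : ℕ) → NoBlock S (V 2 Y)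

/-- The known cases (Weil): dimension at most one, and the degrees different from two in dimension
two. -/
def Known (V : ℤ → Sch k → FMod E) (S : Set E) : Prop :=
  ∀ Y : Sch k, SmoothProj Y → topologicalKrullDim Y.left ≤ (2 : ℕ) → ∀ w : ℤ,
    (w ≠ 2 ∨ topologicalKrullDim Y.left ≤ (1 : ℕ)) → NoBlock S (V w Y)

/-- The maps are bijective for all hypersurfaces `∑_{i ≤ n} z_i B_i(x, y) = 1`. -/
def Forms {S : Set E} (C : PairData.{0} k (FIdx S) E) (n : ℕ) : Prop :=
  ∀ (a b : ℕ) (B : Fin a → Fin b → Fin n → k), BijAll C (hypS B)

lemma dim_le_one_or_two {X : Type} [TopologicalSpace X] (h : topologicalKrullDim X ≤ (2 : ℕ)) :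
    topologicalKrullDim X ≤ (1 : ℕ) ∨ topologicalKrullDim X = (2 : ℕ) := by
  rcases h.lt_or_eq with h | h
  · left
    exact Order.le_of_lt_succ h
  · exact Or.inr h

/-- **Semisimplicity of Frobenius on `H^2` of surfaces.** See the explanations above. The known cases that
are used are points, smooth projective curves and the degrees different from two for surfaces. -/
theorem result [Finite k] [CharZero E] {S : Set E} (hS : Stable (Nat.card k) S)
    (C : PairData.{0} k (FIdx S) E) (V : ℤ → Sch k → FMod E) (h : IsFrobW C V (Nat.card k))
    (known : Known V S) :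
    List.TFAE [
      Surfaces V S,
      Forms C 4,
      ∀ X : Sch k, FT True X → topologicalKrullDim X.left ≤ (2 : ℕ) → BijAll C X] ∧
    Forms C 3 := by
  have hq : (Nat.card k : E) ≠ 0 := by
    rw [Nat.cast_ne_zero]
    exact Nat.card_pos.ne'
  have hb := bnd_pair (h.pair hq hS) h.point
  refine ⟨?_, ?_⟩
  · tfae_have 1 → 3 := by
      intro h1
      refine h.gen 2 fun Y hY hn => (h.bij_iff' hY).mpr fun w => ?_
      rcases dim_le_one_or_two hn with h2 | h2
      · exact known Y hY hn w (Or.inr h2)
      · by_cases hw : w = 2
        · rw [hw]
          exact h1 Y hY h2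
        · exact known Y hY hn w (Or.inl hw)
    tfae_have 3 → 2 := fun h1 => (dim_tri hb 2).mp h1
    tfae_have 2 → 1 := fun h1 Y hY hn =>
      (h.bij_iff' hY).mp ((dim_tri hb 2).mpr h1 Y hY.ft hn.le) 2
    tfae_finish
  · refine (dim_tri hb 1).mp (h.gen 1 fun Y hY hn => (h.bij_iff' hY).mpr fun w => ?_)
    exact known Y hY (hn.trans (by norm_num)) w (Or.inr hn)

end Pool.Agent.Results.MP_1fe969_ag.FourVariables
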