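import Pool.Agent.Q60.SS.Surf

/-!
# MP_1fe969_ag: Frobenius on the tensor powers of the second cohomology of a surface

Let `S` be a smooth projective surface over a finite field with `q` elements, `H = H^2(S)` with the
Frobenius `F`, `b = dim H`, `A` the sum of the `s (s² - 1) / 3` over the sizes `s` of the Jordan
blocks of `F`, `t_n` the dimension of the space of the Tate classes in `H^(⊗ n) ⊆ H^(2 n) (S^n)` (the
`x` with `F x = q ^ n x`) and `z_n` the multiplicity of the eigenvalue `q ^ n` on `H^(⊗ n)`.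

* If `F` is semisimple on `H`, then on all the `H^(⊗ n)`, and `t_n = z_n`.
* If not, then `A > 0`, the number of the Jordan blocks of size `> t √n` on `H^(⊗ n)`, times
  `√n / b ^ n`, tends to `√(2 b / (π A)) exp (- t² b / (2 A))`, and `t_n ≤ C z_n / √n`.
* If for some `ε > 0` some spaces of Tate classes in `H^(⊗ n)` (for instance spanned by the components
  of algebraic cycles on `S^n`) have dimension at least `ε z_n` for infinitely many `n`, then `F` is
  semisimple on `H`.
-/

set_option autoImplicit false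

open Module Filter Topology

universe u v w

namespace Pool.Agent.Results.MP_1fe969_ag.TensorPowers

open Pool.Agent.H914 Pool.Agent.Q60.SS

/-- **Frobenius on the tensor powers of `H^2` of a surface.** -/
theorem result {k : Type u} [Field k] [Finite k] {Ω : Type w} [Field Ω] [CharZero Ω]
    [IsAlgClosed Ω] {T : H2Theory.{u, v, w} k Ω} {q : ℕ} (hq : q = Nat.card k) (hT : T.IsWeil q)
    (S : SmVar.{u} k) (hS : S.dim = 2) (b A : ℝ) (hb : b = finrank Ω (T.H2 S).V)
    (hA : A = jordanMoment (T.H2 S).F) :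
    (∀ n, 0 < T.z q S n) ∧
    (Semisimple (T.H2 S).F → ∀ n, Semisimple ((T.H2 S).pow n).F ∧ T.t q S n = T.z q S n) ∧
    (¬ Semisimple (T.H2 S).F → 0 < A ∧ (T.H2 S).Rayleigh b A ∧ T.Decay q S) ∧
    (∀ ε : ℝ, 0 < ε → T.Dense q S ε → Semisimple (T.H2 S).F) := by
  obtain ⟨B, hB⟩ := hT.dual S hS
  have hfin := hT.finite S hS
  have hq0 : 0 < q := hq ▸ Nat.card_pos
  obtain ⟨h1, h2, h3, h4⟩ := op_law hq0 hfin (hT.inj S hS) hB.nondeg hB.frob (hT.ample S hS)
    b A hb hA
  refine ⟨h1, fun h0 n => ⟨h2 h0 n, ?_⟩, fun h0 => ⟨(h3 h0).1.1, (h3 h0).1.2, (h3 h0).2⟩,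
    fun ε hε h => ?_⟩
  · have h5 : Semisimple ((T.H2 S).pow n).F := h2 h0 n
    have h6 := h5 ((q : Ω) ^ (n + 1))
    unfold H2Theory.t H2Theory.z Op.eigDim Op.mult
    rw [h6]
  · refine h4 ε hε (h.mono fun n ⟨W, hW, hn⟩ => hn.trans ?_)
    have hfn : ∀ n, Module.Finite Ω ((T.H2 S).pow n).V := by
      intro n
      induction n with
      | zero => exact hfin
      | succ n ih =>
        have h7 : Module.Finite Ω (TensorProduct Ω (T.H2 S).V ((T.H2 S).pow n).V) :=
          inferInstance
        exact h7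
    have := hfn n
    unfold Op.eigDim
    exact_mod_cast Submodule.finrank_mono hW

end Pool.Agent.Results.MP_1fe969_ag.TensorPowers
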